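import Pool.Agent.helper10.QT.SpecY

/-! Row bq:AP4. -/

set_option autoImplicit false

namespace Pool.Agent.AT

open Finset Pool.Agent.helper85.FC

theorem AP4_clear (x : Fin 4 → ℚ) (hx : ∀ i, 0 < x i) : ∃ (D : ℕ) (s : Fin 4 → ℕ), 0 < D ∧
    ∀ i, (s i : ℚ) = D * x i := by
  refine ⟨∏ i, (x i).den, fun i => (∏ j ∈ Finset.univ.erase i, (x j).den) * (x i).num.natAbs,
    Finset.prod_pos fun i _ => (x i).den_pos, fun i => ?_⟩
  have h1 : ((x i).num.natAbs : ℚ) = ((x i).num : ℚ) := by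
    have h : ((x i).num.natAbs : ℤ) = (x i).num := Int.natAbs_of_nonneg (Rat.num_nonneg.2 (hx i).le)
    rw [← Int.cast_natCast, h]
  have h2 : ((x i).den : ℚ) * x i = (x i).num := by
    rw [mul_comm]
    exact Rat.mul_den_eq_num (x i)
  rw [← Finset.mul_prod_erase Finset.univ (fun j => (x j).den) (Finset.mem_univ i)]
  push_cast
  rw [h1, ← h2]
  ring

theorem AP4_numden (a b : ℕ) (ha : 0 < a) (hb : 0 < b) (r : ℚ) (hr : r = (a : ℚ) / b) :
    r.num.natAbs = a / Nat.gcd b a ∧ r.den = b / Nat.gcd b a := by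
  have hg : 0 < Nat.gcd b a := Nat.gcd_pos_of_pos_left _ hb
  obtain ⟨a', ha'⟩ := Nat.gcd_dvd_right b a
  obtain ⟨b', hb'⟩ := Nat.gcd_dvd_left b a
  set g := Nat.gcd b a with hgdef
  have hco : Nat.Coprime b' a' := by
    have h := Nat.coprime_div_gcd_div_gcd (m := b) (n := a) hg
    rw [← hgdef] at h
    have e1 : b / g = b' := by
      conv_lhs => rw [hb']
      exact Nat.mul_div_cancel_left _ hg
    have e2 : a / g = a' := by
      conv_lhs => rw [ha']
      exact Nat.mul_div_cancel_left _ hg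
    rwa [e1, e2] at h
  have hb'0 : 0 < b' := by
    rcases Nat.eq_zero_or_pos b' with h | h
    · rw [h, mul_zero] at hb'
      omega
    · exact h
  have e1 : b / g = b' := by
    conv_lhs => rw [hb']
    exact Nat.mul_div_cancel_left _ hg
  have e2 : a / g = a' := by
    conv_lhs => rw [ha']
    exact Nat.mul_div_cancel_left _ hg
  have hr' : r = ((a' : ℤ) : ℚ) / ((b' : ℤ) : ℚ) := by
    rw [hr]
    have hgq : (g : ℚ) ≠ 0 := by exact_mod_cast hg.ne'
    have hbq : (b' : ℚ) ≠ 0 := by exact_mod_cast hb'0.ne'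
    conv_lhs => rw [ha', hb']
    push_cast
    field_simp
  have hcop : Nat.Coprime (a' : ℤ).natAbs (b' : ℤ).natAbs := by
    rw [Int.natAbs_natCast, Int.natAbs_natCast]
    exact hco.symm
  have hbpos : (0 : ℤ) < (b' : ℤ) := by exact_mod_cast hb'0
  have h1 := Rat.num_div_eq_of_coprime hbpos hcop
  have h2 := Rat.den_div_eq_of_coprime hbpos hcop
  rw [e1, e2, hr']
  refine ⟨?_, ?_⟩
  · rw [h1, Int.natAbs_natCast]
  · exact_mod_cast h2

theorem AP4 : AP4_stmt := by
  intro hC x hx hinj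
  obtain ⟨D, s, hD, hs⟩ := AP4_clear x hx
  have hDq : (0 : ℚ) < D := by exact_mod_cast hD
  have hspos : ∀ i, 0 < s i := by
    intro i
    have : (0 : ℚ) < (s i : ℚ) := by
      rw [hs i]
      exact mul_pos hDq (hx i)
    exact_mod_cast this
  have hsinj : Function.Injective s := by
    intro i j hij
    apply hinj
    have h : (s i : ℚ) = (s j : ℚ) := by rw [hij]
    rw [hs i, hs j] at h
    exact mul_left_cancel₀ hDq.ne' h
  obtain ⟨I, δ, hδ, hcard, hI⟩ := hC s hspos hsinj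
  have h1 : 1 < #I := by
    have : (1 : ℝ) < #I := by
      refine lt_trans ?_ hcard
      push_cast
      norm_num
    exact_mod_cast this
  obtain ⟨i, hi, j, hj, hij⟩ := Finset.one_lt_card.1 h1
  refine ⟨j, i, fun h => hij h.symm, δ, hδ, fun X₀ => ?_⟩
  obtain ⟨X, hX, hXI⟩ := hI X₀
  refine ⟨X, hX, ?_⟩
  have h := hXI i hi j hj hij
  have hr : x j / x i = (s j : ℚ) / (s i : ℚ) := by
    rw [hs i, hs j, mul_div_mul_left _ _ hDq.ne']
  obtain ⟨e1, e2⟩ := AP4_numden (s j) (s i) (hspos j) (hspos i) (x j / x i) hr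
  rw [e1, e2]
  exact h

end Pool.Agent.AT
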